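import Pool.Agent.Q16.CII.Core

/-!
# A unit-regular ring with an element whose powers have no common inner inverse

There is a unit-regular ring `R` and `a : R` such that for every `w : R` some power `w ^ k`,
`k ≥ 1`, is not an inner inverse of `a ^ k`.
-/

namespace Pool.Agent.Results.MP_a7dadb_al.NoCommonInverse

open Filter Polynomial

section

variable (F : Type) [Field F]

lemma exists_psi : ∃ ψ : ℕ → RatFunc F →ₗ[F] F,
    (∀ i j, ψ j ((RatFunc.X : RatFunc F) ^ i) = if i = j then 1 else 0) ∧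
      ∀ f, ∀ᶠ n in atTop, ψ n f = 0 := by
  obtain ⟨ι, hι⟩ : ∃ ι : F[X] →ₗ[F] RatFunc F, ∀ p, ι p = algebraMap F[X] (RatFunc F) p :=
    ⟨(IsScalarTower.toAlgHom F F[X] (RatFunc F)).toLinearMap, fun p => rfl⟩
  have hinj : LinearMap.ker ι = ⊥ := by
    rw [LinearMap.ker_eq_bot]
    intro p q hpq
    rw [hι, hι] at hpq
    exact RatFunc.algebraMap_injective F hpq
  obtain ⟨ρ, hρ⟩ := LinearMap.exists_leftInverse_of_injective ι hinj
  refine ⟨fun n => Polynomial.lcoeff F n ∘ₗ ρ, ?_, ?_⟩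
  · intro i j
    have h1 : (RatFunc.X : RatFunc F) ^ i = ι (X ^ i) := by
      rw [hι, map_pow, RatFunc.algebraMap_X]
    have h2 : ρ (ι (X ^ i)) = X ^ i := congrArg (fun g : F[X] →ₗ[F] F[X] => g (X ^ i)) hρ
    rw [h1, LinearMap.comp_apply, h2, Polynomial.lcoeff_apply, Polynomial.coeff_X_pow]
    simp [eq_comm]
  · intro f
    filter_upwards [eventually_gt_atTop (ρ f).natDegree] with n hn
    rw [LinearMap.comp_apply, Polynomial.lcoeff_apply]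
    exact Polynomial.coeff_eq_zero_of_natDegree_lt hn

end

open Pool.Agent.Q16.CII in
theorem result_of_field (F : Type) [Field F] : ∃ (R : Type) (_ : Ring R), (∀ a : R, ∃ u : Rˣ, a * u * a = a) ∧
    ∃ a : R, ∀ w : R, ∃ k : ℕ, 1 ≤ k ∧ a ^ k * w ^ k * a ^ k ≠ a ^ k := by
  obtain ⟨ψ, hψ, hev⟩ := exists_psi F
  obtain ⟨x, hxX⟩ : ∃ x : RatFunc F, x = RatFunc.X := ⟨_, rfl⟩
  rw [← hxX] at hψ
  have hx : x ≠ 0 := by rw [hxX]; exact RatFunc.X_ne_zero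
  obtain ⟨Φ, hΦ⟩ : ∃ Φ : ℕ → RatFunc F →ₗ[F] F, ∀ n, Φ n = ψ 0 + ψ (n + 1) :=
    ⟨_, fun _ => rfl⟩
  have hev' : ∀ f, ∀ᶠ n in atTop, ψ (n + 1) f = 0 := fun f =>
    (tendsto_add_atTop_nat 1).eventually (hev f)
  have hevΦ : ∀ f, ∀ᶠ n in atTop, Φ n f = ψ 0 f := by
    intro f
    filter_upwards [hev' f] with n hn
    rw [hΦ, LinearMap.add_apply, hn, add_zero]
  have h01 : ψ 0 1 = 1 := by rw [← pow_zero x, hψ]; simp
  have hΦ1 : ∀ n, Φ n 1 = 1 := by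
    intro n
    rw [hΦ, LinearMap.add_apply, h01, ← pow_zero x, hψ]; simp
  refine ⟨RR Φ (ψ 0) hevΦ, inferInstance, RR_unit_regular hevΦ h01 hΦ1, ?_⟩
  obtain ⟨a, ha⟩ : ∃ a : ℕ → Module.End F (RatFunc F),
      a = fun n => L x⁻¹ + T (Φ n) [(-x⁻¹, 1)] := ⟨_, rfl⟩
  have ham : a ∈ RR Φ (ψ 0) hevΦ := by
    rw [mem_RR, ha]
    exact ⟨fun n => ⟨x⁻¹, [(-x⁻¹, 1)], Eventually.of_forall fun _ => rfl⟩,
      ⟨x⁻¹, [(-x⁻¹, 1)], Eventually.of_forall fun _ => rfl⟩⟩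
  have hA : ∀ n f, a n f = x⁻¹ * (f - Φ n f • (1 : RatFunc F)) := by
    intro n f
    rw [ha]
    simp only [T_cons, T_nil, add_zero, LinearMap.add_apply, Pool.Agent.Q16.CII.L_apply,
      ro_apply, one_mul, Algebra.smul_def]
    ring
  refine ⟨⟨a, ham⟩, fun w => ?_⟩
  by_contra hcon
  push Not at hcon
  obtain ⟨w, hw1, r, l, hw2⟩ := w
  have hl : ∀ᶠ n in atTop, ∀ p ∈ l, ψ (n + 1) p.1 = 0 ∧ ψ (n + 1) (p.2 * x⁻¹) = 0 := by
    rw [show (∀ᶠ n in atTop, ∀ p ∈ l, ψ (n + 1) p.1 = 0 ∧ ψ (n + 1) (p.2 * x⁻¹) = 0) ↔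
      (∀ᶠ n in atTop, ∀ p ∈ {p | p ∈ l}, ψ (n + 1) p.1 = 0 ∧ ψ (n + 1) (p.2 * x⁻¹) = 0) from
        Iff.rfl, Filter.eventually_all_finite (List.finite_toSet l)]
    intro p _
    exact (hev' _).and (hev' _)
  obtain ⟨n, hn1, hn2⟩ := (hw2.and hl).exists
  have hk : ∀ k, 1 ≤ k → (a n) ^ k * (w n) ^ k * (a n) ^ k = (a n) ^ k := by
    intro k hk
    have := congrArg Subtype.val (hcon k hk)
    exact congrFun this n
  have h1 := hk 1 le_rfl
  rw [pow_one, pow_one] at h1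
  exact core hx hψ hev (m := n + 1) (by omega) (hΦ n) (hA n) hn1 hn2 h1 (hk _ (by omega))

/-- There are a unit-regular ring `R` and `a : R` such that no `w : R` has the property that
`w ^ k` is an inner inverse of `a ^ k` for every `k ≥ 1`. -/
theorem result : ∃ (R : Type) (_ : Ring R), (∀ a : R, ∃ u : Rˣ, a * u * a = a) ∧
    ∃ a : R, ∀ w : R, ∃ k : ℕ, 1 ≤ k ∧ a ^ k * w ^ k * a ^ k ≠ a ^ k :=
  result_of_field ℚ

end Pool.Agent.Results.MP_a7dadb_al.NoCommonInverse
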